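import Pool.Agent.H71.KInt.Translate

/-!
# Maximum `k`-intersecting families of permutations, for `n - k ≤ √n / 500`

Write `m = n - k`.  We determine the largest `k`-intersecting families of permutations of `n`
points whenever `(500 m) ^ 2 ≤ n`, prove that they are exactly the double translates of `M_i` with
`i = ⌊m / 2⌋` (and `i = 0` when `m = 2`), and show that every `k`-intersecting family with at
least half as many members lies in such a double translate.
-/

set_option autoImplicit false

/-- The family `M_i`: the permutations with at least `k + i` fixed points among the first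
`k + 2 i` points. -/
def Pool.Agent.Results.MP_b2edf8_co.SquareRootRange.M (n k i : ℕ) :
    Finset (Equiv.Perm (Fin n)) :=
  Finset.univ.filter (fun π : Equiv.Perm (Fin n) =>
    k + i ≤ (Finset.univ.filter (fun j : Fin n => j.val < k + 2 * i ∧ π j = j)).card)

/-- Any two distinct members of `F` agree on at least `k` points. -/
def Pool.Agent.Results.MP_b2edf8_co.SquareRootRange.Intersecting {n : ℕ} (k : ℕ)
    (F : Finset (Equiv.Perm (Fin n))) : Prop :=
  ∀ σ ∈ F, ∀ τ ∈ F, σ ≠ τ → k ≤ (Finset.univ.filter (fun j : Fin n => σ j = τ j)).card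

namespace Pool.Agent.Results.MP_b2edf8_co.SquareRootRange

open Finset Pool.Agent.H71.KInt

theorem result : ∀ n k : ℕ, 1 ≤ k → k ≤ n → (500 * (n - k)) ^ 2 ≤ n →
    ∃ i : ℕ, k + 2 * i ≤ n ∧ i = (if n - k = 2 then 0 else (n - k) / 2) ∧
      ∀ F : Finset (Equiv.Perm (Fin n)), Intersecting k F →
        F.card ≤ (M n k i).card ∧
        ((M n k i).card ≤ 2 * F.card →
          ∃ σ τ : Equiv.Perm (Fin n), F ⊆ (M n k i).image (fun π => σ * π * τ)) ∧
        ((∀ G : Finset (Equiv.Perm (Fin n)), Intersecting k G → G.card ≤ F.card) →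
          ∃ σ τ : Equiv.Perm (Fin n), F = (M n k i).image (fun π => σ * π * τ)) := by
  intro n k _ hkn hn
  refine ⟨idx (n - k), ?_, rfl, ?_⟩
  · unfold idx
    split_ifs
    · omega
    · omega
  intro F hF
  have hstab : (M n k (idx (n - k))).card ≤ 2 * F.card →
      ∃ σ τ : Equiv.Perm (Fin n), F ⊆ (M n k (idx (n - k))).image (fun π => σ * π * τ) :=
    fun h => stab_all hkn hn F hF h
  refine ⟨bound_all hkn hn F hF, hstab, ?_⟩
  intro hmax
  have h1 : (M n k (idx (n - k))).card ≤ F.card :=
    hmax _ (fun σ hσ τ hτ _ => Mfam_intersecting σ τ hσ hτ)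
  obtain ⟨σ, τ, h⟩ := hstab (by omega)
  refine ⟨σ, τ, eq_of_subset_of_card_le h ?_⟩
  exact card_image_le.trans h1

end Pool.Agent.Results.MP_b2edf8_co.SquareRootRange
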